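import Mathlib
import Pool.Agent.Y16.AF.StmP
import Pool.Agent.H906R3.YM.Conc

/-! Project AF: integration by parts. -/

open MeasureTheory Matrix
open scoped Matrix.Norms.Frobenius ContDiff

namespace Pool.Agent.Y929.AF

open Pool.Agent.Y16.Gluon Pool.Agent.Y16.AF Pool.Agent.H906R3

set_option linter.unusedSectionVars false

noncomputable section

variable {N n L : ℕ} {G : Subgroup (UU N)}

/-- the data of the basis as a frame -/
def fr (B : LieBasis G n) : YM.Frame G n where
  X := B.X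
  ex := B.ex
  ex_eq := B.ex_eq
  orth := B.orth
  full := B.full

/-- the abstract data -/
def dat (B : LieBasis G n) : YM.LD G N n := (fr B).toLD

lemma mt_mul (g h : G) : mt (g * h) = mt g * mt h := rfl

lemma mt_one : mt (1 : G) = 1 := rfl

lemma mt_inv (g : G) : mt g⁻¹ = (mt g)ᴴ := rfl

lemma skewX (B : LieBasis G n) (a : Fin n) : (B.X a)ᴴ = -B.X a := (fr B).skewX a

lemma hd_link (B : LieBasis G n) (U : Links L → G) (e : Links L) (a : Fin n) (w' : Links L)
    [NeZero L] :
    HasDerivAt (fun t => mt ((dat B).shift e a t U w'))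
      (if w' = e then B.X a * mt (U w') else 0) 0 := by
  have h := (hasDerivAt_pi.1 ((dat B).hasDerivAt_mat e a U)) w'
  have h2 : (dat B).vf e a ((dat B).mat U) w' = if w' = e then B.X a * mt (U w') else 0 := by
    by_cases hw : w' = e
    · subst hw
      rw [if_pos rfl]
      unfold YM.LD.vf
      rw [Pi.single_eq_same]
      rfl
    · rw [if_neg hw]
      unfold YM.LD.vf
      rw [Pi.single_eq_of_ne hw]
  rw [h2] at h
  exact h

/-- the condition that the leg `l` of `p` is the link `w` -/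
def hit (p : Pq L) (l : Fin 4) (w : Dy L) : Prop :=
  lv p.2.1 p.2.2 l = some w.1.2 ∧ p.1 + ls p.2.2 l = w.1.1

lemma leg_cases (p : Pq L) (l : Fin 4) :
    (∃ w' : Links L, sb p.2.2 l = true ∧ (∀ U : Links L → G, lg (fx U) p l = U w') ∧
      ∀ w : Dy L, hit p l w ↔ w' = w.1) ∨
    (∃ w' : Links L, sb p.2.2 l = false ∧ (∀ U : Links L → G, lg (fx U) p l = (U w')⁻¹) ∧
      ∀ w : Dy L, hit p l w ↔ w' = w.1) ∨
    ((∀ U : Links L → G, lg (fx U) p l = 1) ∧ ∀ w : Dy L, ¬ hit p l w) := by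
  cases h : lv p.2.1 p.2.2 l with
  | none =>
    right; right
    refine ⟨fun U => ?_, fun w hw => ?_⟩
    · unfold lg
      rw [h]
    · unfold hit at hw
      rw [h] at hw
      exact absurd hw.1 (by simp)
  | some a =>
    have hiff : ∀ w : Dy L, hit p l w ↔ (p.1 + ls p.2.2 l, a) = w.1 := by
      intro w
      unfold hit
      rw [h, Prod.ext_iff, Option.some_inj]
      exact and_comm
    by_cases hd : dyn (L := L) (p.1 + ls p.2.2 l, a)
    · have hf : ∀ U : Links L → G, fx U (p.1 + ls p.2.2 l, a) = U (p.1 + ls p.2.2 l, a) := by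
        intro U
        unfold fx
        rw [if_pos hd]
      cases hs : sb p.2.2 l with
      | true =>
        left
        refine ⟨(p.1 + ls p.2.2 l, a), rfl, fun U => ?_, hiff⟩
        unfold lg
        rw [h]
        simp only [hs, if_true]
        exact hf U
      | false =>
        right; left
        refine ⟨(p.1 + ls p.2.2 l, a), rfl, fun U => ?_, hiff⟩
        unfold lg
        rw [h]
        simp only [hs, Bool.false_eq_true, if_false]
        rw [hf U]
    · right; right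
      have hf : ∀ U : Links L → G, fx U (p.1 + ls p.2.2 l, a) = 1 := by
        intro U
        unfold fx
        rw [if_neg hd]
      refine ⟨fun U => ?_, fun w hw => ?_⟩
      · unfold lg
        rw [h]
        simp only [hf U, inv_one, ite_self]
      · have := (hiff w).1 hw
        exact hd (this ▸ w.2)

variable [NeZero L]

lemma sm_leg (B : LieBasis G n) (p : Pq L) (l : Fin 4) :
    YM.SmM (dat B) (fun U : Links L → G => mt (lg (fx U) p l)) := by
  rcases leg_cases (G := G) p l with ⟨w', -, h, -⟩ | ⟨w', -, h, -⟩ | ⟨h, -⟩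
  · simp only [h]
    exact YM.SmM.link w'
  · simp only [h, mt_inv]
    exact (YM.SmM.link w').ct
  · simp only [h]
    exact YM.SmM.const _

open Classical in
lemma hd_leg (B : LieBasis G n) (U : Links L → G) (w : Dy L) (a : Fin n) (p : Pq L) (l : Fin 4) :
    HasDerivAt (fun t => mt (lg (fx ((dat B).shift w.1 a t U)) p l))
      (if hit p l w then dl B U p l a else 0) 0 := by
  rcases leg_cases (G := G) p l with ⟨w', hs, h, hw⟩ | ⟨w', hs, h, hw⟩ | ⟨h, hw⟩
  · simp only [h]
    have h1 := hd_link B U w.1 a w'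
    have h2 : (if hit p l w then dl B U p l a else 0) = if w' = w.1 then B.X a * mt (U w') else 0 := by
      by_cases hh : w' = w.1
      · rw [if_pos hh, if_pos ((hw w).2 hh)]
        unfold dl
        rw [hs, if_pos rfl, h]
      · rw [if_neg hh, if_neg (fun h' => hh ((hw w).1 h'))]
    rw [h2]
    exact h1
  · simp only [h, mt_inv]
    have h1 := hd_link B U w.1 a w'
    have h3 := (YM.ctL N).hasFDerivAt.comp_hasDerivAt (0 : ℝ) h1
    have h2 : (if hit p l w then dl B U p l a else 0) =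
        YM.ctL N (if w' = w.1 then B.X a * mt (U w') else 0) := by
      by_cases hh : w' = w.1
      · rw [if_pos hh, if_pos ((hw w).2 hh)]
        unfold dl
        rw [hs, if_neg (by simp), h, mt_inv, YM.ctL_apply, conjTranspose_mul, skewX, mul_neg]
      · rw [if_neg hh, if_neg (fun h' => hh ((hw w).1 h')), map_zero]
    rw [h2]
    exact h3
  · simp only [h]
    rw [if_neg (hw w)]
    exact hasDerivAt_const _ _

/-- a plaquette -/
lemma sm_plaq (B : LieBasis G n) (p : Pq L) :
    YM.SmM (dat B) (fun U : Links L → G =>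
      1 - mt (lg (fx U) p 0 * lg (fx U) p 1 * lg (fx U) p 2 * lg (fx U) p 3)) := by
  simp only [mt_mul]
  exact (YM.SmM.const 1).sub ((((sm_leg B p 0).mul (sm_leg B p 1)).mul (sm_leg B p 2)).mul
    (sm_leg B p 3))

lemma ip_one (M : Mt N) : YM.ip (1 : Mt N) M = (trace M).re := by
  rw [YM.ip_apply, conjTranspose_one, one_mul]

lemma hd_tr4 (f0 f1 f2 f3 : ℝ → Mt N) (d0 d1 d2 d3 : Mt N) (h0 : HasDerivAt f0 d0 0)
    (h1 : HasDerivAt f1 d1 0) (h2 : HasDerivAt f2 d2 0) (h3 : HasDerivAt f3 d3 0) :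
    HasDerivAt (fun t => (trace (1 - f0 t * f1 t * f2 t * f3 t)).re)
      (-(trace (d0 * f1 0 * f2 0 * f3 0)).re + -(trace (f0 0 * d1 * f2 0 * f3 0)).re +
        -(trace (f0 0 * f1 0 * d2 * f3 0)).re + -(trace (f0 0 * f1 0 * f2 0 * d3)).re) 0 := by
  have hm : HasDerivAt (fun t => f0 t * f1 t * f2 t * f3 t)
      (d0 * f1 0 * f2 0 * f3 0 + f0 0 * d1 * f2 0 * f3 0 + f0 0 * f1 0 * d2 * f3 0 +
        f0 0 * f1 0 * f2 0 * d3) 0 := by
    refine (((h0.fun_mul h1).fun_mul h2).fun_mul h3).congr_deriv ?_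
    simp only [add_mul]
  have hf := (YM.ip (1 : Mt N)).hasFDerivAt.comp_hasDerivAt (0 : ℝ) (hm.const_sub 1)
  refine (hf.congr_of_eventuallyEq ?_).congr_deriv ?_
  · refine Filter.Eventually.of_forall fun t => ?_
    exact (ip_one _).symm
  · refine (ip_one _).trans ?_
    rw [trace_neg, trace_add, trace_add, trace_add, Complex.neg_re, Complex.add_re, Complex.add_re,
      Complex.add_re]
    ring

lemma hd_plaq (B : LieBasis G n) (U : Links L → G) (i : Dy L × Fin n) (p : Pq L) :
    HasDerivAt (fun t => (trace (1 - mt (lg (fx ((dat B).shift i.1.1 i.2 t U)) p 0 *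
      lg (fx ((dat B).shift i.1.1 i.2 t U)) p 1 * lg (fx ((dat B).shift i.1.1 i.2 t U)) p 2 *
      lg (fx ((dat B).shift i.1.1 i.2 t U)) p 3))).re)
      (∑ l : Fin 4,
        if lv p.2.1 p.2.2 l = some i.1.1.2 ∧ p.1 + ls p.2.2 l = i.1.1.1 then
          -(trace ((if l = 0 then dl B U p 0 i.2 else mt (lg (fx U) p 0)) *
            (if l = 1 then dl B U p 1 i.2 else mt (lg (fx U) p 1)) *
            (if l = 2 then dl B U p 2 i.2 else mt (lg (fx U) p 2)) *
            (if l = 3 then dl B U p 3 i.2 else mt (lg (fx U) p 3)))).re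
        else 0) 0 := by
  classical
  have hm := hd_tr4 _ _ _ _ _ _ _ _ (hd_leg B U i.1 i.2 p 0) (hd_leg B U i.1 i.2 p 1)
    (hd_leg B U i.1 i.2 p 2) (hd_leg B U i.1 i.2 p 3)
  have hz : (dat B).shift i.1.1 i.2 0 U = U := YM.LD.shift_zero _ _ _ _
  refine hm.congr_deriv ?_
  rw [hz, Fin.sum_univ_four]
  have e : ∀ l : Fin 4, (lv p.2.1 p.2.2 l = some i.1.1.2 ∧ p.1 + ls p.2.2 l = i.1.1.1) =
      hit p l i.1 := fun l => rfl
  simp only [e]
  refine congrArg₂ _ (congrArg₂ _ (congrArg₂ _ ?_ ?_) ?_) ?_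
  · by_cases c : hit p 0 i.1
    · simp [c]
    · simp [c]
  · by_cases c : hit p 1 i.1
    · simp [c]
    · simp [c]
  · by_cases c : hit p 2 i.1
    · simp [c]
    · simp [c]
  · by_cases c : hit p 3 i.1
    · simp [c]
    · simp [c]

lemma hd_S0 (B : LieBasis G n) (U : Links L → G) (i : Dy L × Fin n) :
    HasDerivAt (fun t => S0 ((dat B).shift i.1.1 i.2 t U)) (GS B U i) 0 := by
  unfold S0 GS
  exact HasDerivAt.fun_sum fun p _ => hd_plaq B U i p

lemma S0_mem (B : LieBasis G n) : (S0 : (Links L → G) → ℝ) ∈ YM.Sm (dat B) (Links L) := by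
  have h : (S0 : (Links L → G) → ℝ) =
      ∑ p : Pq L, (YM.lin (YM.ip (1 : Mt N)) _ (sm_plaq B p)).1 := by
    funext U
    rw [Finset.sum_apply]
    unfold S0
    refine Finset.sum_congr rfl fun p _ => ?_
    rw [YM.lin_apply, ip_one]
  rw [h]
  exact Subalgebra.sum_mem _ fun p _ => (YM.lin (YM.ip (1 : Mt N)) _ (sm_plaq B p)).2

lemma exp_mem (B : LieBasis G n) (β : ℝ) :
    (fun U : Links L → G => Real.exp (-(β * S0 U))) ∈ YM.Sm (dat B) (Links L) := by
  obtain ⟨f, hf, h⟩ := S0_mem (L := L) B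
  refine ⟨fun M => Real.exp (-(β * f M)), ?_, fun U => by
    show Real.exp (-(β * S0 U)) = Real.exp (-(β * f ((dat B).mat U)))
    rw [h U]⟩
  exact Real.contDiff_exp.comp (contDiff_const.mul hf).neg

/-- the Boltzmann factor -/
def bz (B : LieBasis G n) (L : ℕ) [NeZero L] (β : ℝ) : YM.Sm (dat B) (Links L) :=
  ⟨_, exp_mem B β⟩

lemma bz_apply (B : LieBasis G n) (β : ℝ) (U : Links L → G) :
    (bz B L β).1 U = Real.exp (-(β * S0 U)) := rfl

lemma Dv_bz (B : LieBasis G n) (β : ℝ) (i : Dy L × Fin n) (U : Links L → G) :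
    ((dat B).Dv (i.1.1, i.2) (bz B L β)).1 U = -(β * GS B U i) * Real.exp (-(β * S0 U)) := by
  rw [YM.Dv_apply]
  unfold YM.LD.dF
  have h1 := (((hd_S0 B U i).const_mul β).fun_neg).exp
  have hz : (dat B).shift i.1.1 i.2 0 U = U := YM.LD.shift_zero _ _ _ _
  have h2 := h1.deriv
  refine h2.trans ?_
  rw [hz]
  ring

/-- a coordinate -/
def cS (B : LieBasis G n) (i : Dy L × Fin n) : YM.Sm (dat B) (Links L) :=
  YM.lin (YM.ip (B.X i.2)) _ (YM.SmM.link (L := dat B) i.1.1)

lemma cS_apply (B : LieBasis G n) (i : Dy L × Fin n) (U : Links L → G) :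
    (cS B i).1 U = cA B U i := rfl

lemma Dv_cS (B : LieBasis G n) (i j : Dy L × Fin n) (U : Links L → G) :
    ((dat B).Dv (i.1.1, i.2) (cS B j)).1 U = dA B U i j := by
  have h1 := hd_link B U i.1.1 i.2 j.1.1
  have h2 := YM.Dv_lin (YM.ip (B.X j.2)) _ (YM.SmM.link (L := dat B) j.1.1) (i.1.1, i.2) U h1
  refine h2.trans ?_
  unfold dA
  by_cases h : i.1 = j.1
  · rw [if_pos h, if_pos (by rw [h]), YM.ip_apply, h]
  · rw [if_neg h, if_neg (fun h' => h (Subtype.ext h'.symm)), map_zero]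

variable [CompactSpace G] [SecondCountableTopology G] [MeasurableSpace G] [BorelSpace G]
  (μ : Measure G) [IsProbabilityMeasure μ] [μ.IsHaarMeasure]

lemma ibp (B : LieBasis G n) (β : ℝ) (i : Dy L × Fin n) (P : YM.Sm (dat B) (Links L))
    (dP : (Links L → G) → ℝ) (hP : ∀ U, ((dat B).Dv (i.1.1, i.2) P).1 U = dP U) :
    EX μ β dP = β * EX μ β (fun U => P.1 U * GS B U i) := by
  have h0 := YM.I_D_zero (L := dat B) μ (i.1.1, i.2) (P * bz B L β)
  rw [Derivation.leibniz, map_add, smul_eq_mul, smul_eq_mul, YM.I_apply, YM.I_apply] at h0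
  have e1 : ∀ U, (P * (dat B).Dv (i.1.1, i.2) (bz B L β)).1 U =
      -β * (P.1 U * GS B U i * Real.exp (-(β * S0 U))) := by
    intro U
    have : (P * (dat B).Dv (i.1.1, i.2) (bz B L β)).1 U =
      P.1 U * ((dat B).Dv (i.1.1, i.2) (bz B L β)).1 U := rfl
    rw [this, Dv_bz]
    ring
  have e2 : ∀ U, (bz B L β * (dat B).Dv (i.1.1, i.2) P).1 U =
      dP U * Real.exp (-(β * S0 U)) := by
    intro U
    have : (bz B L β * (dat B).Dv (i.1.1, i.2) P).1 U =
      (bz B L β).1 U * ((dat B).Dv (i.1.1, i.2) P).1 U := rfl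
    rw [this, hP, bz_apply]
    ring
  simp only [e1, e2] at h0
  rw [integral_const_mul] at h0
  unfold EX
  have h3 : ∫ U : Links L → G, dP U * Real.exp (-(β * S0 U)) ∂(Measure.pi fun _ => μ) =
      β * ∫ U : Links L → G, P.1 U * GS B U i * Real.exp (-(β * S0 U)) ∂(Measure.pi fun _ => μ) := by
    linarith
  rw [h3, mul_div_assoc]

end

end Pool.Agent.Y929.AF

namespace Pool.Agent.Y929.AF

open Pool.Agent.Y16.Gluon Pool.Agent.Y16.AF Pool.Agent.H906R3

/-- **Integration by parts.** -/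
theorem af_ibp : S_IBP := by
  intro N n G hG _ _ μ _ _ B L _ hL β
  have hc : CompactSpace G := by
    have h1 : IsCompact (G : Set (UU N)) := hG.isCompact
    exact isCompact_iff_compactSpace.1 h1
  have h00 : SecondCountableTopology (UU N) := TopologicalSpace.Subtype.secondCountableTopology _
  have hs : SecondCountableTopology G := TopologicalSpace.Subtype.secondCountableTopology _
  refine ⟨fun i j => ?_, fun i j k l => ?_⟩
  · exact ibp μ B β i (cS B j) _ (fun U => Dv_cS B i j U)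
  · refine ibp μ B β i (cS B j * cS B k * cS B l) _ (fun U => ?_)
    rw [Derivation.leibniz, Derivation.leibniz]
    have e : (((cS B j * cS B k) • (dat B).Dv (i.1.1, i.2) (cS B l) +
        cS B l • (cS B j • (dat B).Dv (i.1.1, i.2) (cS B k) +
          cS B k • (dat B).Dv (i.1.1, i.2) (cS B j))) : YM.Sm (dat B) (Links L)).1 U =
        (cS B j).1 U * (cS B k).1 U * ((dat B).Dv (i.1.1, i.2) (cS B l)).1 U +
        (cS B l).1 U * ((cS B j).1 U * ((dat B).Dv (i.1.1, i.2) (cS B k)).1 U +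
          (cS B k).1 U * ((dat B).Dv (i.1.1, i.2) (cS B j)).1 U) := rfl
    rw [e, Dv_cS, Dv_cS, Dv_cS, cS_apply, cS_apply, cS_apply]
    ring

end Pool.Agent.Y929.AF
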