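import Mathlib
import Pool.Agent.Y16.AF.StmB
import Pool.Agent.Y901.AF.En

/-! Project AF: limit of the fluctuation. -/

open MeasureTheory Matrix Filter
open scoped Topology

namespace Pool.Agent.Y929.AF

open Pool.Agent.Y16.AF Pool.Agent.Y901.AF

noncomputable section

/-! ### sums of Green functions on the diagonal -/

lemma sum_cosh (w b : ℝ) (n : ℕ) :
    2 * Real.sinh w * ∑ t ∈ Finset.range n, Real.cosh (2 * w * t + b) =
      Real.sinh (w * (2 * n - 1) + b) - Real.sinh (b - w) := by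
  induction n with
  | zero =>
    rw [Finset.sum_range_zero, mul_zero]
    push_cast
    rw [show w * (2 * 0 - 1) + b = b - w by ring, sub_self]
  | succ n ih =>
    rw [Finset.sum_range_succ, mul_add, ih]
    have h1 : w * (2 * ((n + 1 : ℕ) : ℝ) - 1) + b = (2 * w * n + b) + w := by push_cast; ring
    have h2 : w * (2 * (n : ℝ) - 1) + b = (2 * w * n + b) - w := by ring
    rw [h1, h2, Real.sinh_add, Real.sinh_sub]
    ring

lemma sum_GN {w : ℝ} (hw : 0 < w) {M : ℕ} (hM : 1 ≤ M) :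
    ∑ t ∈ Finset.range M, GN M w t t =
      M * Real.cosh (w * M) / (2 * Real.sinh w * Real.sinh (w * M)) +
        1 / (2 * Real.sinh w ^ 2) := by
  have hs : 0 < Real.sinh w := Real.sinh_pos_iff.2 hw
  have hM0 : (0 : ℝ) < M := by exact_mod_cast hM
  have hS : 0 < Real.sinh (w * M) := Real.sinh_pos_iff.2 (by positivity)
  have h1 : ∀ t ∈ Finset.range M, GN M w t t =
      (Real.cosh (w * M) + Real.cosh (2 * w * t + (w - w * M))) /
        (2 * Real.sinh w * Real.sinh (w * M)) := by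
    intro t _
    unfold GN
    rw [min_self, max_self]
    have e1 : Real.cosh (w * M) = Real.cosh (w * ((t : ℝ) + 1 / 2) + w * (M - 1 / 2 - t)) := by
      congr 1
      ring
    have e2 : Real.cosh (2 * w * t + (w - w * M)) =
        Real.cosh (w * ((t : ℝ) + 1 / 2) - w * (M - 1 / 2 - t)) := by
      congr 1
      ring
    rw [e1, e2, Real.cosh_add, Real.cosh_sub]
    field_simp
    ring
  rw [Finset.sum_congr rfl h1, ← Finset.sum_div, Finset.sum_add_distrib, Finset.sum_const,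
    Finset.card_range, nsmul_eq_mul]
  have h2 := sum_cosh w (w - w * M) M
  have h3 : w * (2 * (M : ℝ) - 1) + (w - w * M) = w * M := by ring
  have h4 : w - w * (M : ℝ) - w = -(w * M) := by ring
  rw [h3, h4, Real.sinh_neg] at h2
  have h5 : ∑ t ∈ Finset.range M, Real.cosh (2 * w * t + (w - w * M)) =
      Real.sinh (w * M) / Real.sinh w := by
    rw [eq_div_iff hs.ne']
    linarith
  rw [h5]
  field_simp

lemma sum_GD {w : ℝ} (hw : 0 < w) {n : ℕ} :
    ∑ t ∈ Finset.range n, GD (n + 1) w (t + 1) (t + 1) =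
      n * Real.cosh (w * (n + 1)) / (2 * Real.sinh w * Real.sinh (w * (n + 1))) -
        Real.sinh (w * n) / (2 * Real.sinh w ^ 2 * Real.sinh (w * (n + 1))) := by
  have hs : 0 < Real.sinh w := Real.sinh_pos_iff.2 hw
  have hS : 0 < Real.sinh (w * (n + 1)) := Real.sinh_pos_iff.2 (by positivity)
  have h1 : ∀ t ∈ Finset.range n, GD (n + 1) w (t + 1) (t + 1) =
      (Real.cosh (w * (n + 1)) - Real.cosh (2 * w * t + (2 * w - w * (n + 1)))) /
        (2 * Real.sinh w * Real.sinh (w * (n + 1))) := by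
    intro t _
    unfold GD
    rw [min_self, max_self]
    push_cast
    have e1 : Real.cosh (w * (n + 1)) =
        Real.cosh (w * ((t : ℝ) + 1) + w * ((n : ℝ) + 1 - (t + 1))) := by
      congr 1
      ring
    have e2 : Real.cosh (2 * w * t + (2 * w - w * (n + 1))) =
        Real.cosh (w * ((t : ℝ) + 1) - w * ((n : ℝ) + 1 - (t + 1))) := by
      congr 1
      ring
    rw [e1, e2, Real.cosh_add, Real.cosh_sub]
    field_simp
    ring
  rw [Finset.sum_congr rfl h1, ← Finset.sum_div, Finset.sum_sub_distrib, Finset.sum_const,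
    Finset.card_range, nsmul_eq_mul]
  have h2 := sum_cosh w (2 * w - w * (n + 1)) n
  have h3 : w * (2 * (n : ℝ) - 1) + (2 * w - w * (n + 1)) = w * n := by ring
  have h4 : 2 * w - w * ((n : ℝ) + 1) - w = -(w * n) := by ring
  rw [h3, h4, Real.sinh_neg] at h2
  have h5 : ∑ t ∈ Finset.range n, Real.cosh (2 * w * t + (2 * w - w * (n + 1))) =
      Real.sinh (w * n) / Real.sinh w := by
    rw [eq_div_iff hs.ne']
    linarith
  rw [h5]
  field_simp

/-- `coth y - 1` -/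
lemma coth_bd {y : ℝ} (hy : 0 < y) :
    0 ≤ Real.cosh y / Real.sinh y - 1 ∧ Real.cosh y / Real.sinh y - 1 ≤ 1 / y := by
  have hs : 0 < Real.sinh y := Real.sinh_pos_iff.2 hy
  have h1 : Real.cosh y / Real.sinh y - 1 = Real.exp (-y) / Real.sinh y := by
    rw [← Real.cosh_sub_sinh]
    field_simp
  rw [h1]
  constructor
  · positivity
  · have h2 : Real.exp (-y) ≤ 1 := Real.exp_le_one_iff.2 (by linarith)
    have h3 : y ≤ Real.sinh y := Real.self_le_sinh_iff.2 hy.le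
    rw [div_le_div_iff₀ hs hy]
    nlinarith

lemma GN_est {w : ℝ} (hw : 0 < w) {M : ℕ} (hM : 1 ≤ M) (hwM : 1 ≤ w * M) :
    |∑ t ∈ Finset.range M, GN M w t t - M / (2 * Real.sinh w)| ≤ 1 / w ^ 2 := by
  have hs : 0 < Real.sinh w := Real.sinh_pos_iff.2 hw
  have hM0 : (0 : ℝ) < M := by exact_mod_cast hM
  have hy : 0 < w * M := by linarith
  have hS : 0 < Real.sinh (w * M) := Real.sinh_pos_iff.2 hy
  have hsw : w ≤ Real.sinh w := Real.self_le_sinh_iff.2 hw.le
  obtain ⟨c1, c2⟩ := coth_bd hy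
  rw [sum_GN hw hM]
  have e1 : M * Real.cosh (w * M) / (2 * Real.sinh w * Real.sinh (w * M)) +
        1 / (2 * Real.sinh w ^ 2) - M / (2 * Real.sinh w) =
      M / (2 * Real.sinh w) * (Real.cosh (w * M) / Real.sinh (w * M) - 1) +
        1 / (2 * Real.sinh w ^ 2) := by
    field_simp
    ring
  rw [e1, abs_of_nonneg (by positivity)]
  have e2 : M / (2 * Real.sinh w) * (Real.cosh (w * M) / Real.sinh (w * M) - 1) ≤
      1 / (2 * w ^ 2) := by
    calc M / (2 * Real.sinh w) * (Real.cosh (w * M) / Real.sinh (w * M) - 1) ≤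
        M / (2 * w) * (1 / (w * M)) := by
          refine mul_le_mul ?_ c2 c1 (by positivity)
          exact div_le_div_of_nonneg_left hM0.le (by positivity) (by linarith)
      _ = 1 / (2 * w ^ 2) := by
        field_simp
  have e3 : 1 / (2 * Real.sinh w ^ 2) ≤ 1 / (2 * w ^ 2) := by
    refine div_le_div_of_nonneg_left (by norm_num) (by positivity) ?_
    have : w ^ 2 ≤ Real.sinh w ^ 2 := pow_le_pow_left₀ hw.le hsw 2
    linarith
  have e4 : 1 / (2 * w ^ 2) + 1 / (2 * w ^ 2) = 1 / w ^ 2 := by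
    field_simp
    norm_num
  linarith

lemma GD_est {w : ℝ} (hw : 0 < w) (hw3 : w ≤ 3) {n : ℕ} (hwM : 1 ≤ w * (n + 1)) :
    |∑ t ∈ Finset.range n, GD (n + 1) w (t + 1) (t + 1) - (n + 1) / (2 * Real.sinh w)| ≤
      4 / w ^ 2 := by
  have hs : 0 < Real.sinh w := Real.sinh_pos_iff.2 hw
  have hy : 0 < w * ((n : ℝ) + 1) := by linarith
  have hS : 0 < Real.sinh (w * (n + 1)) := Real.sinh_pos_iff.2 hy
  have hsw : w ≤ Real.sinh w := Real.self_le_sinh_iff.2 hw.le
  have hn0 : (0 : ℝ) ≤ n := Nat.cast_nonneg n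
  obtain ⟨c1, c2⟩ := coth_bd hy
  rw [sum_GD hw]
  have hc2 : Real.cosh (w * (n + 1)) / Real.sinh (w * (n + 1)) ≤ 2 := by
    have : 1 / (w * ((n : ℝ) + 1)) ≤ 1 := by
      rw [div_le_one hy]
      exact hwM
    linarith
  have e1 : n * Real.cosh (w * (n + 1)) / (2 * Real.sinh w * Real.sinh (w * (n + 1))) -
        Real.sinh (w * n) / (2 * Real.sinh w ^ 2 * Real.sinh (w * (n + 1))) -
        (n + 1) / (2 * Real.sinh w) =
      (n + 1) / (2 * Real.sinh w) * (Real.cosh (w * (n + 1)) / Real.sinh (w * (n + 1)) - 1) -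
        1 / (2 * Real.sinh w) * (Real.cosh (w * (n + 1)) / Real.sinh (w * (n + 1))) -
        1 / (2 * Real.sinh w ^ 2) * (Real.sinh (w * n) / Real.sinh (w * (n + 1))) := by
    field_simp
    ring
  have e2 : ((n : ℝ) + 1) / (2 * Real.sinh w) *
      (Real.cosh (w * (n + 1)) / Real.sinh (w * (n + 1)) - 1) ≤ 1 / (2 * w ^ 2) := by
    calc ((n : ℝ) + 1) / (2 * Real.sinh w) *
          (Real.cosh (w * (n + 1)) / Real.sinh (w * (n + 1)) - 1) ≤
        (n + 1) / (2 * w) * (1 / (w * (n + 1))) := by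
          refine mul_le_mul ?_ c2 c1 (by positivity)
          exact div_le_div_of_nonneg_left (by positivity) (by positivity) (by linarith)
      _ = 1 / (2 * w ^ 2) := by
        field_simp
  have e2' : 0 ≤ ((n : ℝ) + 1) / (2 * Real.sinh w) *
      (Real.cosh (w * (n + 1)) / Real.sinh (w * (n + 1)) - 1) :=
    mul_nonneg (by positivity) c1
  have e3 : 1 / (2 * Real.sinh w) * (Real.cosh (w * (n + 1)) / Real.sinh (w * (n + 1))) ≤
      3 / w ^ 2 := by
    calc 1 / (2 * Real.sinh w) * (Real.cosh (w * (n + 1)) / Real.sinh (w * (n + 1))) ≤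
        1 / (2 * w) * 2 := by
          refine mul_le_mul ?_ hc2 (by linarith) (by positivity)
          exact div_le_div_of_nonneg_left (by norm_num) (by positivity) (by linarith)
      _ ≤ 3 / w ^ 2 := by
        rw [le_div_iff₀ (by positivity)]
        field_simp
        linarith
  have e3' : 0 ≤ 1 / (2 * Real.sinh w) *
      (Real.cosh (w * (n + 1)) / Real.sinh (w * (n + 1))) := by
    refine mul_nonneg (by positivity) (by linarith)
  have e4 : 1 / (2 * Real.sinh w ^ 2) * (Real.sinh (w * n) / Real.sinh (w * (n + 1))) ≤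
      1 / (2 * w ^ 2) := by
    calc 1 / (2 * Real.sinh w ^ 2) * (Real.sinh (w * n) / Real.sinh (w * (n + 1))) ≤
        1 / (2 * w ^ 2) * 1 := by
          refine mul_le_mul ?_ ?_ ?_ (by positivity)
          · refine div_le_div_of_nonneg_left (by norm_num) (by positivity) ?_
            have : w ^ 2 ≤ Real.sinh w ^ 2 := pow_le_pow_left₀ hw.le hsw 2
            linarith
          · rw [div_le_one hS]
            exact Real.sinh_le_sinh.2 (by nlinarith)
          · exact div_nonneg (Real.sinh_nonneg_iff.2 (by positivity)) hS.le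
      _ = 1 / (2 * w ^ 2) := mul_one _
  have e4' : 0 ≤ 1 / (2 * Real.sinh w ^ 2) * (Real.sinh (w * n) / Real.sinh (w * (n + 1))) :=
    mul_nonneg (by positivity) (div_nonneg (Real.sinh_nonneg_iff.2 (by positivity)) hS.le)
  have e5 : 1 / (2 * w ^ 2) + 3 / w ^ 2 ≤ 4 / w ^ 2 := by
    have : 4 / w ^ 2 - (1 / (2 * w ^ 2) + 3 / w ^ 2) = 1 / (2 * w ^ 2) := by
      field_simp
      norm_num
    have h6 : 0 ≤ 1 / (2 * w ^ 2) := by positivity
    linarith
  have e6 : 1 / (2 * w ^ 2) ≤ 4 / w ^ 2 := by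
    have h6 : 0 ≤ 3 / w ^ 2 := by positivity
    linarith
  rw [e1, abs_le]
  constructor
  · linarith
  · linarith

/-- the main part of `WF` -/
def hm (x c s : ℝ) : ℝ := 1 + ((2 - 2 * Real.cos x) - c) / (2 * s)

lemma WF_est {w x c : ℝ} (hw : 0 < w) (hw3 : w ≤ 3) {M : ℕ} (hM : 1 ≤ M) (hwM : 1 ≤ w * M)
    (hc : 2 * Real.cosh w - 2 = c) (hx : 2 - 2 * Real.cos x ≤ c) :
    |WF M x w - M * hm x c (Real.sinh w)| ≤ 5 * (1 + 9 * K1) + 1 := by
  obtain ⟨n, rfl⟩ : ∃ n, M = n + 1 := ⟨M - 1, by omega⟩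
  have hs : 0 < Real.sinh w := Real.sinh_pos_iff.2 hw
  have h1 := GN_est hw hM hwM
  push_cast at hwM
  have h2 := GD_est hw hw3 hwM
  have hx0 : 0 ≤ 2 - 2 * Real.cos x := by linarith [Real.cos_le_one x]
  have hc0 : 0 ≤ c := hx0.trans hx
  have hcu : c ≤ (1 + 9 * K1) * w ^ 2 := by
    have h3 := cosh_upper hw.le hw3
    rw [hc] at h3
    have h4 : w ^ 4 ≤ 9 * w ^ 2 := by
      have : w ^ 2 ≤ 9 := by nlinarith
      nlinarith [sq_nonneg w]
    nlinarith [K1_pos]
  have e1 : WF (n + 1) x w - ((n + 1 : ℕ) : ℝ) * hm x c (Real.sinh w) =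
      (2 - 2 * Real.cos x) * (∑ t ∈ Finset.range (n + 1), GN (n + 1) w t t -
        ((n + 1 : ℕ) : ℝ) / (2 * Real.sinh w)) -
      c * (∑ t ∈ Finset.range n, GD (n + 1) w (t + 1) (t + 1) - (n + 1) / (2 * Real.sinh w)) -
      1 := by
    unfold WF hm
    rw [Nat.add_sub_cancel, Finset.sum_sub_distrib, ← Finset.mul_sum, hc, Finset.sum_const,
      Finset.card_range, nsmul_eq_mul]
    push_cast
    field_simp
    ring
  have f1 : |(2 - 2 * Real.cos x) * (∑ t ∈ Finset.range (n + 1), GN (n + 1) w t t -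
        ((n + 1 : ℕ) : ℝ) / (2 * Real.sinh w))| ≤ 1 + 9 * K1 := by
    rw [abs_mul, abs_of_nonneg hx0]
    calc (2 - 2 * Real.cos x) * |∑ t ∈ Finset.range (n + 1), GN (n + 1) w t t -
        ((n + 1 : ℕ) : ℝ) / (2 * Real.sinh w)| ≤ ((1 + 9 * K1) * w ^ 2) * (1 / w ^ 2) :=
          mul_le_mul (hx.trans hcu) h1 (abs_nonneg _) (by have := K1_pos; positivity)
      _ = 1 + 9 * K1 := by field_simp
  have f2 : |c * (∑ t ∈ Finset.range n, GD (n + 1) w (t + 1) (t + 1) -
      (n + 1) / (2 * Real.sinh w))| ≤ 4 * (1 + 9 * K1) := by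
    rw [abs_mul, abs_of_nonneg hc0]
    calc c * |∑ t ∈ Finset.range n, GD (n + 1) w (t + 1) (t + 1) -
        (n + 1) / (2 * Real.sinh w)| ≤ ((1 + 9 * K1) * w ^ 2) * (4 / w ^ 2) :=
          mul_le_mul hcu h2 (abs_nonneg _) (by have := K1_pos; positivity)
      _ = 4 * (1 + 9 * K1) := by field_simp
  rw [e1]
  rw [abs_le] at f1 f2 ⊢
  constructor
  · linarith [f1.1, f2.2]
  · linarith [f1.2, f2.1]

/-! ### the function -/

/-- the symbol of the Laplacian -/
def cR (x : Fin 3 → ℝ) : ℝ := ∑ j, (2 - 2 * Real.cos (x j))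

/-- the limit function -/
def hR (x : Fin 3 → ℝ) : ℝ :=
  hm (x 0) (cR x) (Real.sqrt (cR x) * Real.sqrt (1 + (Real.sqrt (cR x) / 2) ^ 2))

lemma cR_nonneg (x : Fin 3 → ℝ) : 0 ≤ cR x :=
  Finset.sum_nonneg fun j _ => by linarith [Real.cos_le_one (x j)]

lemma le_cR (x : Fin 3 → ℝ) (j : Fin 3) : 2 - 2 * Real.cos (x j) ≤ cR x := by
  unfold cR
  exact Finset.single_le_sum (f := fun j => 2 - 2 * Real.cos (x j))
    (fun i _ => by linarith [Real.cos_le_one (x i)]) (Finset.mem_univ j)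

lemma cR_pos {x : Fin 3 → ℝ} (hx : ∀ j, |x j| ≤ Real.pi) (h0 : x ≠ 0) : 0 < cR x := by
  obtain ⟨j, hj⟩ : ∃ j, x j ≠ 0 := by
    by_contra hne
    push Not at hne
    exact h0 (funext hne)
  have h1 := le_two_sub (x j) (hx j)
  have h2 : 0 < 4 / Real.pi ^ 2 * x j ^ 2 := by
    have := Real.pi_pos
    positivity
  exact h2.trans_le (h1.trans (le_cR x j))

lemma hR_cont : ContinuousOn hR ({x | ∀ j, |x j| ≤ Real.pi} \ {0}) := by
  have hc : Continuous cR := by
    unfold cR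
    fun_prop
  unfold hR hm
  refine ContinuousOn.add continuousOn_const (ContinuousOn.div ?_ ?_ ?_)
  · refine Continuous.continuousOn ?_
    fun_prop
  · refine Continuous.continuousOn ?_
    fun_prop
  · rintro x ⟨hx, h0⟩
    have h1 := cR_pos hx h0
    have h2 : 0 < Real.sqrt (cR x) := Real.sqrt_pos.2 h1
    have h3 : 0 < Real.sqrt (1 + (Real.sqrt (cR x) / 2) ^ 2) := Real.sqrt_pos.2 (by positivity)
    positivity

lemma hR_bd (x : Fin 3 → ℝ) (hx : ∀ j, |x j| ≤ Real.pi) (h0 : x ≠ 0) :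
    |hR x| ≤ (2 * (3 * Real.pi ^ 2)) / ∑ j, x j ^ 2 := by
  have h1 := cR_pos hx h0
  have hS : 0 < ∑ j, x j ^ 2 := by
    obtain ⟨j, hj⟩ : ∃ j, x j ≠ 0 := by
      by_contra hne
      push Not at hne
      exact h0 (funext hne)
    have h2 : 0 < x j ^ 2 := by positivity
    exact h2.trans_le (Finset.single_le_sum (f := fun j => x j ^ 2) (fun i _ => sq_nonneg _)
      (Finset.mem_univ j))
  have hS3 : ∑ j, x j ^ 2 ≤ 3 * Real.pi ^ 2 := by
    have : ∑ j : Fin 3, x j ^ 2 ≤ ∑ j : Fin 3, Real.pi ^ 2 := by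
      refine Finset.sum_le_sum fun j _ => ?_
      rw [← sq_abs]
      exact pow_le_pow_left₀ (abs_nonneg _) (hx j) 2
    refine this.trans (le_of_eq ?_)
    rw [Finset.sum_const, Finset.card_univ, Fintype.card_fin, nsmul_eq_mul]
    norm_num
  have h2 : |hR x| ≤ 2 := by
    unfold hR hm
    obtain ⟨s, hs⟩ : ∃ s, s = Real.sqrt (cR x) := ⟨_, rfl⟩
    have hs0 : 0 < s := by rw [hs]; exact Real.sqrt_pos.2 h1
    have hs2 : s ^ 2 = cR x := by rw [hs]; exact Real.sq_sqrt h1.le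
    obtain ⟨r, hr⟩ : ∃ r, r = Real.sqrt (1 + (s / 2) ^ 2) := ⟨_, rfl⟩
    have hr0 : 0 < r := by rw [hr]; exact Real.sqrt_pos.2 (by positivity)
    have hr2 : r ^ 2 = 1 + (s / 2) ^ 2 := by rw [hr]; exact Real.sq_sqrt (by positivity)
    rw [← hs, ← hr]
    have hsr : s ≤ 2 * r := by
      have : s ^ 2 ≤ (2 * r) ^ 2 := by nlinarith
      exact (pow_le_pow_iff_left₀ hs0.le (by positivity) two_ne_zero).1 this
    have h3 : |((2 - 2 * Real.cos (x 0)) - cR x) / (2 * (s * r))| ≤ 1 := by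
      rw [abs_div, abs_of_pos (show 0 < 2 * (s * r) by positivity), div_le_one (by positivity)]
      have h4 := le_cR x 0
      have h5 : 0 ≤ 2 - 2 * Real.cos (x 0) := by linarith [Real.cos_le_one (x 0)]
      rw [abs_of_nonpos (by linarith)]
      have h6 : s * s ≤ s * (2 * r) := mul_le_mul_of_nonneg_left hsr hs0.le
      nlinarith
    calc |1 + ((2 - 2 * Real.cos (x 0)) - cR x) / (2 * (s * r))| ≤
        |(1 : ℝ)| + |((2 - 2 * Real.cos (x 0)) - cR x) / (2 * (s * r))| := abs_add_le _ _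
      _ ≤ 2 := by rw [abs_one]; linarith
  rw [le_div_iff₀ hS]
  exact mul_le_mul h2 hS3 hS.le (by norm_num)

/-! ### momenta -/

lemma wh2_eq {L : ℕ} [NeZero L] (k : Sp L) :
    wh2 k = cR (fun j => 2 * Real.pi / (L : ℝ) * (ir k j : ℝ)) := by
  unfold wh2 cR
  refine Finset.sum_congr rfl fun j _ => ?_
  rw [cos_ang]
  rfl

lemma sinh_en {L : ℕ} (k : Sp L) :
    Real.sinh (en k) = Real.sqrt (wh2 k) * Real.sqrt (1 + (Real.sqrt (wh2 k) / 2) ^ 2) := by
  unfold en
  rw [Real.sinh_two_mul, Real.sinh_arsinh, Real.cosh_arsinh]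
  ring

lemma hR_eq {L : ℕ} [NeZero L] (k : Sp L) :
    hR (fun j => 2 * Real.pi / (L : ℝ) * (ir k j : ℝ)) =
      hm (ang k 0) (wh2 k) (Real.sinh (en k)) := by
  unfold hR
  rw [sinh_en, ← wh2_eq]
  unfold hm
  rw [cos_ang]
  rfl

lemma ang_le {L : ℕ} (k : Sp L) : 2 - 2 * Real.cos (ang k 0) ≤ wh2 k := by
  unfold wh2
  exact Finset.single_le_sum (f := fun j => 2 - 2 * Real.cos (ang k j))
    (fun i _ => by linarith [Real.cos_le_one (ang k i)]) (Finset.mem_univ 0)

lemma card_nz (L : ℕ) [NeZero L] : ((nz L).card : ℝ) ≤ (L : ℝ) ^ 3 := by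
  have h1 : (nz L).card ≤ Fintype.card (Sp L) := by
    unfold nz
    exact (Finset.card_filter_le _ _).trans (le_of_eq Finset.card_univ)
  have h2 : Fintype.card (Sp L) = L ^ 3 := by
    rw [Fintype.card_fun, ZMod.card, Fintype.card_fin]
  rw [h2] at h1
  exact_mod_cast h1

theorem af_wl : S_WL := by
  intro hWF hEN _ hRS
  obtain ⟨x, hx⟩ := hRS hR _ hR_cont hR_bd
  refine ⟨x, ?_⟩
  obtain ⟨c, C, -, -, hen⟩ := hEN
  obtain ⟨C1, hC1⟩ : ∃ C1 : ℝ, C1 = 5 * (1 + 9 * K1) + 1 := ⟨_, rfl⟩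
  have hC10 : 0 ≤ C1 := by
    rw [hC1]
    have := K1_pos
    positivity
  -- the error
  have herr : ∀ L : ℕ, |trace ((rs (Hm (L := L + 2)))⁻¹ * rs (H01 (L := L + 2))) /
      ((L + 2 : ℕ) : ℝ) ^ 4 - 1 / ((L + 2 : ℕ) : ℝ) ^ 3 *
      ∑ k ∈ nz (L + 2), hR (fun j => 2 * Real.pi / ((L + 2 : ℕ) : ℝ) * (ir k j : ℝ))| ≤
      (C1 + 1) * (1 / ((L + 2 : ℕ) : ℝ)) := by
    intro L
    obtain ⟨M, hM⟩ : ∃ M : ℝ, M = ((L + 2 : ℕ) : ℝ) := ⟨_, rfl⟩
    have hM2 : 2 ≤ M := by
      rw [hM]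
      push_cast
      have : (0 : ℝ) ≤ L := Nat.cast_nonneg L
      linarith
    have hM0 : 0 < M := by linarith
    rw [hWF (L + 2) (by omega)]
    have h1 : ∀ k ∈ nz (L + 2), |WF (L + 2) (ang k 0) (en k) -
        M * hR (fun j => 2 * Real.pi / ((L + 2 : ℕ) : ℝ) * (ir k j : ℝ))| ≤ C1 := by
      intro k hk
      have hk0 : k ≠ 0 := (Finset.mem_filter.1 hk).2
      obtain ⟨g1, g2, g3, g4, -⟩ := hen (L + 2) (by omega) k hk0
      rw [hR_eq, hC1, hM]
      exact WF_est g1 g3 (by omega) g2 g4 (ang_le k)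
    have h2 : |∑ k ∈ nz (L + 2), (WF (L + 2) (ang k 0) (en k) -
        M * hR (fun j => 2 * Real.pi / ((L + 2 : ℕ) : ℝ) * (ir k j : ℝ)))| ≤ M ^ 3 * C1 := by
      refine (Finset.abs_sum_le_sum_abs _ _).trans ((Finset.sum_le_sum h1).trans ?_)
      rw [Finset.sum_const, nsmul_eq_mul]
      refine mul_le_mul_of_nonneg_right ?_ hC10
      rw [hM]
      exact card_nz (L + 2)
    rw [← hM]
    have h3 : ((∑ k ∈ nz (L + 2), WF (L + 2) (ang k 0) (en k)) + (M - 1)) / M ^ 4 -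
        1 / M ^ 3 * ∑ k ∈ nz (L + 2), hR (fun j => 2 * Real.pi / M * (ir k j : ℝ)) =
        (∑ k ∈ nz (L + 2), (WF (L + 2) (ang k 0) (en k) -
          M * hR (fun j => 2 * Real.pi / M * (ir k j : ℝ))) + (M - 1)) / M ^ 4 := by
      rw [Finset.sum_sub_distrib, ← Finset.mul_sum]
      field_simp
      ring
    rw [← hM] at h2
    rw [h3, abs_div, abs_of_pos (show 0 < M ^ 4 by positivity), div_le_iff₀ (by positivity)]
    have h4 : M - 1 ≤ M ^ 3 := by nlinarith [sq_nonneg M, sq_nonneg (M - 1)]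
    calc |∑ k ∈ nz (L + 2), (WF (L + 2) (ang k 0) (en k) -
          M * hR (fun j => 2 * Real.pi / M * (ir k j : ℝ))) + (M - 1)| ≤
        |∑ k ∈ nz (L + 2), (WF (L + 2) (ang k 0) (en k) -
          M * hR (fun j => 2 * Real.pi / M * (ir k j : ℝ)))| + |M - 1| := abs_add_le _ _
      _ ≤ M ^ 3 * C1 + M ^ 3 := by
        rw [abs_of_nonneg (by linarith : (0 : ℝ) ≤ M - 1)]
        linarith
      _ = (C1 + 1) * (1 / M) * M ^ 4 := by
        field_simp
  have h0 : Tendsto (fun L : ℕ => 1 / ((L + 2 : ℕ) : ℝ)) atTop (𝓝 0) := by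
    have := (tendsto_one_div_atTop_nhds_zero_nat (𝕜 := ℝ)).comp (tendsto_add_atTop_nat 2)
    exact this
  have h1 : Tendsto (fun L : ℕ => (C1 + 1) * (1 / ((L + 2 : ℕ) : ℝ))) atTop (𝓝 0) := by
    have := h0.const_mul (C1 + 1)
    rwa [mul_zero] at this
  have h2 := squeeze_zero_norm (fun L => by rw [Real.norm_eq_abs]; exact herr L) h1
  have h3 := h2.add hx
  rw [zero_add] at h3
  refine h3.congr fun L => ?_
  ring

end

end Pool.Agent.Y929.AF
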